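import Pool.Agent.Helper87.TB.St

set_option autoImplicit false

/-! Project TB (helper87), MP_e73f90_co: module PD (helper78): theorem (C). -/

namespace Pool.Agent.Helper78.TB

open Pool.Agent.Helper87.TB

theorem aPD (hPB : StPB) (hEX : StEX) : StPD := by
  classical
  intro r N M hN hM
  set x : ℝ := (r : ℝ) * (r - 1) / (2 * N) with hx
  have hMe : M * Real.exp (-x) < 1 := by
    have h := mul_lt_mul_of_pos_right hM (Real.exp_pos (-x))
    rwa [← Real.exp_add, add_neg_cancel, Real.exp_zero] at h
  have hM1 : 0 < |M| + 1 := by positivity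
  set ε : ℝ := (1 - M * Real.exp (-x)) / (2 * (|M| + 1)) with hε
  have hε0 : 0 < ε := by
    rw [hε]
    exact div_pos (by linarith) (by positivity)
  have hMε : M * ε < 1 - M * Real.exp (-x) := by
    have h1 : M * ε ≤ (|M| + 1) * ε := mul_le_mul_of_nonneg_right ((le_abs_self M).trans (by linarith)) hε0.le
    have h2 : (|M| + 1) * ε = (1 - M * Real.exp (-x)) / 2 := by
      rw [hε]
      field_simp
    linarith
  obtain ⟨ω, n0, h⟩ := hPB r N ε hN hε0
  refine ⟨ω, n0, fun n hn V hV hd => ?_⟩
  by_contra hcon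
  push Not at hcon
  have hP : PairsRich V ω N := hcon
  have h1 := h n hn V hV hP
  obtain ⟨h2, h3⟩ := hEX r N hN
  have hd0 : 0 ≤ dens n r V := by
    unfold dens
    positivity
  have hM0 : 0 ≤ M := hd0.trans hd
  have h4 : dens n r V * ((∏ j ∈ Finset.range r, (1 - (j : ℝ) / N)) + ε) ≤ M * (Real.exp (-x) + ε) :=
    mul_le_mul hd (by linarith) (by linarith) hM0
  nlinarith

end Pool.Agent.Helper78.TB
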